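import Mathlib
import Pool.Agent.Run7.h28.BV.Weier

/-!
# Weierstrass curves: integral points with one sparse coordinate

The conjecture of Hall and Lang bounds the integral points of `y ^ 2 = x ^ 3 + A x + B` by a power of
`max (|A|, |B|)`.  We prove this for all points one coordinate of which (`x` or `y`) is a sum of `k`
`S`-units with coefficients of small height and has at one place a leading term, while the other
coordinate is an arbitrary `S`-integer: all curves over all number fields `L` of bounded discriminant,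
with one constant.  Over `ℤ` one can take for example all integral points with
`x = F_n ^ 2 + (small)` or `y = F_n ^ 3 + (small)`, where `F_n` is a Fibonacci number, or a dominated sum
of `k` Fibonacci numbers, in the place of `F_n ^ 2` and `F_n ^ 3`.
-/

open Height NumberField IsDedekindDomain

namespace Pool.Agent.Results.MP_a1107e_nt.OneSparseCoordinate

/-- The places of a number field, infinite or finite. -/
abbrev Place (K : Type) [Field K] [NumberField K] : Type :=
  InfinitePlace K ⊕ HeightOneSpectrum (𝓞 K)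

/-- The absolute value of a place, as normalised in Mathlib. -/
noncomputable def absv {K : Type} [Field K] [NumberField K] : Place K → AbsoluteValue K ℝ
  | Sum.inl w => w.1
  | Sum.inr v => (FinitePlace.mk v).1

/-- The finite places of `L` above the positive integers in `S`. -/
def primesAbove (L : Type) [Field L] [NumberField L] (S : Finset ℕ) :
    Set (HeightOneSpectrum (𝓞 L)) :=
  {w | ∃ p ∈ S, p ≠ 0 ∧ ((p : ℕ) : 𝓞 L) ∈ w.asIdeal}

/-- The infinite places of `L` and the finite ones above `S`. -/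
def placesAbove (L : Type) [Field L] [NumberField L] (S : Finset ℕ) : Set (Place L) :=
  {v | ∀ w, v = Sum.inr w → w ∈ primesAbove L S}

section

variable {K : Type} [Field K] [NumberField K]

/-- `x` is a sum of `k` elements of `Γ` with coefficients in `K` of height at most `M`. -/
def IsSparse (Γ : Subgroup Kˣ) (k : ℕ) (M : ℝ) (x : K) : Prop :=
  ∃ (a : Fin k → K) (u : Fin k → Kˣ), (∀ r, mulHeight₁ (a r) ≤ M) ∧ (∀ r, u r ∈ Γ) ∧
    x = ∑ r, a r * (u r : K)

/-- `t` is `v`-adically near the power `(e z) ^ q`, where `z` is in `Γ` and `e` has height at most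
`M`. -/
def NearPower (Γ : Subgroup Kˣ) (v : Place K) (B δ M h : ℝ) (q : ℕ) (t : K) : Prop :=
  ∃ (z : Kˣ) (e : K), z ∈ Γ ∧ e ≠ 0 ∧ mulHeight₁ e ≤ M ∧ mulHeight₁ (z : K) ≤ M * h ^ B ∧
    absv v (t / (z : K) ^ q - e ^ q) ≤ M * h ^ (-δ)

/-- `t` is `v`-adically near the power `(e z) ^ q`, where `z` is in `Γ` and `v`-adically large and `e`
has height at most `M`. -/
def NearLargePower (Γ : Subgroup Kˣ) (v : Place K) (B δ M h : ℝ) (q : ℕ) (t : K) : Prop :=
  ∃ (z : Kˣ) (e : K), z ∈ Γ ∧ e ≠ 0 ∧ mulHeight₁ e ≤ M ∧ mulHeight₁ (z : K) ≤ M * h ^ B ∧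
    absv v (z : K)⁻¹ ≤ M * h ^ (-δ) ∧ absv v (t / (z : K) ^ q - e ^ q) ≤ M * h ^ (-δ)

end

lemma absv_eq {K : Type} [Field K] [NumberField K] (v : Place K) :
    absv v = Pool.Agent.W180.OP.av v := by
  cases v with
  | inl w => rfl
  | inr w => rfl

lemma finite_placesAbove (L : Type) [Field L] [NumberField L] (S : Finset ℕ) :
    (placesAbove L S).Finite := by
  have h1 : placesAbove L S ⊆ Set.range (Sum.inl : InfinitePlace L → Place L) ∪
      Sum.inr '' primesAbove L S := by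
    rintro (w | w) hw
    · exact Or.inl ⟨w, rfl⟩
    · exact Or.inr ⟨w, hw w rfl, rfl⟩
  exact ((Set.finite_range _).union
    ((Pool.Agent.Run7.h28.BV.finite_prAbove L S).image _)).subset h1

/-- Let `k`, `D` be natural numbers, `B₀` and `δ > 0` real numbers and `S` a finite set of primes.
There is a constant `C` such that for all number fields `L ⊆ ℂ` with `|disc L| ≤ D`, all places `v` of
`L` which are infinite or above `S`, all `M ≥ 1`, all `A, B ∈ L` of height at most `M` with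
`4 A ^ 3 + 27 B ^ 2 ≠ 0` and all points `(x, y)` over `L` of the curve `y ^ 2 = x ^ 3 + A x + B` one
has `H (x) ≤ (C M) ^ C` and `H (y) ≤ (C M) ^ C`, if
* `x` is a sum of `k` `S`-units of `L` with coefficients in `L` of height at most `M`, `b y` is
  `S`-integral for some `b ≠ 0` of height at most `M`, and `y ^ 2` is `v`-adically near the square of
  a small multiple of an `S`-unit, or
* `y` is a sum of `k` `S`-units of `L` with coefficients in `L` of height at most `M`, `b x` is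
  `S`-integral for some `b ≠ 0` of height at most `M`, `L` contains the cube roots of unity and
  `y ^ 2 - B` is `v`-adically near the cube of a small multiple of a `v`-adically large `S`-unit. -/
theorem result (k D : ℕ) (B₀ δ : ℝ) (hδ : 0 < δ) (S : Finset ℕ) :
    ∃ C : ℝ, 1 ≤ C ∧ ∀ (L : IntermediateField ℚ ℂ) [NumberField L], |discr L| ≤ D →
      ∀ v ∈ placesAbove L S, ∀ (M : ℝ) (A B x y b : L), 1 ≤ M → 4 * A ^ 3 + 27 * B ^ 2 ≠ 0 →
        mulHeight₁ A ≤ M → mulHeight₁ B ≤ M → y ^ 2 = x ^ 3 + A * x + B →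
        b ≠ 0 → mulHeight₁ b ≤ M →
        (IsSparse ((primesAbove L S).unit L) k M x ∧
          (∀ w, w ∉ primesAbove L S → absv (Sum.inr w : Place L) (b * y) ≤ 1) ∧
          NearPower ((primesAbove L S).unit L) v B₀ δ M (mulHeight₁ x) 2 (y ^ 2) ∨
        IsSparse ((primesAbove L S).unit L) k M y ∧
          (∀ w, w ∉ primesAbove L S → absv (Sum.inr w : Place L) (b * x) ≤ 1) ∧
          (∃ ζ : L, IsPrimitiveRoot ζ 3) ∧
          NearLargePower ((primesAbove L S).unit L) v B₀ δ M (mulHeight₁ y) 3 (y ^ 2 - B)) →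
        mulHeight₁ x ≤ (C * M) ^ C ∧ mulHeight₁ y ≤ (C * M) ^ C := by
  refine Pool.Agent.Run7.h28.BV.uniform_disc D (fun L _ => Place L)
    (fun L _ => placesAbove L S) (fun L _ => finite_placesAbove L S)
    (fun L _ v C => ∀ (M : ℝ) (A B x y b : L), 1 ≤ M → 4 * A ^ 3 + 27 * B ^ 2 ≠ 0 →
        mulHeight₁ A ≤ M → mulHeight₁ B ≤ M → y ^ 2 = x ^ 3 + A * x + B →
        b ≠ 0 → mulHeight₁ b ≤ M →
        (IsSparse ((primesAbove L S).unit L) k M x ∧
          (∀ w, w ∉ primesAbove L S → absv (Sum.inr w : Place L) (b * y) ≤ 1) ∧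
          NearPower ((primesAbove L S).unit L) v B₀ δ M (mulHeight₁ x) 2 (y ^ 2) ∨
        IsSparse ((primesAbove L S).unit L) k M y ∧
          (∀ w, w ∉ primesAbove L S → absv (Sum.inr w : Place L) (b * x) ≤ 1) ∧
          (∃ ζ : L, IsPrimitiveRoot ζ 3) ∧
          NearLargePower ((primesAbove L S).unit L) v B₀ δ M (mulHeight₁ y) 3 (y ^ 2 - B)) →
        mulHeight₁ x ≤ (C * M) ^ C ∧ mulHeight₁ y ≤ (C * M) ^ C)
    (fun L _ v C C' h1 h2 h3 h4 M A B x y b a1 a2 a3 a4 a5 a6 a7 a8 =>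
      ⟨Pool.Agent.Run7.h28.BV.bound_mono h1 h2 h3 a1 (h4 M A B x y b a1 a2 a3 a4 a5 a6 a7 a8).1,
       Pool.Agent.Run7.h28.BV.bound_mono h1 h2 h3 a1 (h4 M A B x y b a1 a2 a3 a4 a5 a6 a7 a8).2⟩)
    (fun L _ v _ => ?_)
  have hfin := Pool.Agent.Run7.h28.BV.finite_prAbove L S
  have hfg := Pool.Agent.H39R3.Tor.sunit_fg L _ hfin
  obtain ⟨C1, hC1, h1⟩ := Pool.Agent.Run7.h28.BV.weierX k B₀ δ hδ L
    ((primesAbove L S).unit L) hfg v hfin.toFinset
  have hint : ∀ a : L, (∀ w, w ∉ primesAbove L S → absv (Sum.inr w : Place L) a ≤ 1) →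
      ∀ w, w ∉ hfin.toFinset →
        Pool.Agent.W180.OP.av (Sum.inr w : Pool.Agent.W180.OP.Pl L) a ≤ 1 := by
    intro a ha w hw
    have h8 := ha w (fun h9 => hw (hfin.mem_toFinset.2 h9))
    rw [absv_eq] at h8
    exact h8
  by_cases hζ : ∃ ζ : L, IsPrimitiveRoot ζ 3
  · obtain ⟨ζ, hζ⟩ := hζ
    obtain ⟨C2, hC2, h2⟩ := Pool.Agent.Run7.h28.BV.weierY k B₀ δ hδ L ζ hζ
      ((primesAbove L S).unit L) hfg v hfin.toFinset
    have hm1 : 1 ≤ max C1 C2 := hC1.trans (le_max_left _ _)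
    refine ⟨max C1 C2, by linarith, fun M A B x y b a1 a2 a3 a4 a5 a6 a7 a8 => ?_⟩
    rcases a8 with ⟨b1, b2, z, e, c1, c2, c3, c4, c5⟩ | ⟨b1, b2, -, z, e, c1, c2, c3, c4, c5, c6⟩
    · rw [absv_eq] at c5
      have h3 := h1 M A B x y b a1 a2 a3 a4 a5 b1 a6 a7 (hint _ b2) ⟨z, e, c1, c2, c3, c4, c5⟩
      exact ⟨Pool.Agent.Run7.h28.BV.bound_mono (by linarith) (le_max_left _ _) hm1 a1 h3.1,
        Pool.Agent.Run7.h28.BV.bound_mono (by linarith) (le_max_left _ _) hm1 a1 h3.2⟩
    · rw [absv_eq] at c5 c6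
      have h3 := h2 M A B x y b a1 a2 a3 a4 a5 b1 a6 a7 (hint _ b2)
        ⟨z, e, c1, c2, c3, c4, c5, c6⟩
      exact ⟨Pool.Agent.Run7.h28.BV.bound_mono (by linarith) (le_max_right _ _) hm1 a1 h3.1,
        Pool.Agent.Run7.h28.BV.bound_mono (by linarith) (le_max_right _ _) hm1 a1 h3.2⟩
  · refine ⟨C1, by linarith, fun M A B x y b a1 a2 a3 a4 a5 a6 a7 a8 => ?_⟩
    rcases a8 with ⟨b1, b2, z, e, c1, c2, c3, c4, c5⟩ | ⟨-, -, h4, -⟩
    · rw [absv_eq] at c5
      exact h1 M A B x y b a1 a2 a3 a4 a5 b1 a6 a7 (hint _ b2) ⟨z, e, c1, c2, c3, c4, c5⟩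
    · exact absurd h4 hζ

end Pool.Agent.Results.MP_a1107e_nt.OneSparseCoordinate
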