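import Pool.Agent.Run7.h430.TW.RPairs
import Pool.Agent.R418.HL.Fin

/-!
# The Hall-Lang conjecture for the curves `y ^ 2 = x ^ 3 ± A x ± B` with `(A, B)` along almost all pairs of orbits

Let `φ_k` be the `k`-th iterate of Euler's function, `φ_0(m) = m`. Let `f`, `g` be positive multiplicative functions of at most
polynomial growth such that `f p ≤ M p` for the large primes `p`, with different values at different large primes; for example
the identity, Euler's function or the sum of the divisors. The positive integers `A`, `B` are called balanced if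
`A ^ 3 ≤ B ^ (2 + 1 / 48)` and `B ^ 2 ≤ A ^ (3 + 1 / 48)`: this is the usual ordering by height, up to a small power. A pair `(A, B)`
is bad if it is balanced and one of the four curves `y ^ 2 = x ^ 3 ± A x ± B` has an integral point with
`|x| ≤ exp (H ^ (1 / 3000))`, `H = max (A ^ (1 / 2), B ^ (1 / 3))`. Let `c = 1 / 10800`.

(1) One orbit. For almost all `m`, for ALL `k, a ≤ K(m)` and ALL `A` with `|A - a F(v)| ≤ K(m) v^κ`, `v = f(φ_k(m))`: for ALL `Y`
at most `2 Y^(1 - c)` of the `B ≤ Y` are bad together with `A`; here `F` has steps bounded below by a positive constant and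
growth at most `v^d` (for example `F v = α v^d`), `d (1 - c) + κ < 1`, and `K(m)` tends to infinity.

(2) Pairs of orbits. If also `d' (1 - c) + κ < 1`, there is `K(m)` tending to infinity such that for 100% of the pairs `(m, m')`
(in every box `[1, N] × [1, N']` with large sides), with `K = K(min (m, m'))`, for ALL `k, l, a, b ≤ K`, `a, b ≥ 1`, and ALL
`A`, `B` with `|A - a F(v)| ≤ K v^κ`, `|B - b G(w)| ≤ K w^κ`, `v = f(φ_k(m))`, `w = g(φ_l(m'))`, the pair `(A, B)` is not bad: the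
curves `y ^ 2 = x ^ 3 ± A x ± B` have NO integral points up to exponentially large heights. So the Hall-Lang inequality can fail
for these curves, with whatever constants, only beyond `exp (H ^ (1 / 3000))`.

The iterates of Euler's function are not multiplicative, and their values form a thin set and are taken with very large
multiplicities; so this does not follow from the theorem on almost all `(A, B)` (`AlmostAllCurves` of this problem, starting
files), which is used here. The tool is `Pool.Agent.N760.IT` (starting files), in a form uniform in a parameter, transferred to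
pairs of orbits in `Run7/h430/TW/RPairs`.
-/

set_option autoImplicit false

namespace Pool.Agent.Results.MP_a1107e_nt.PairsOfOrbits

open Finset Filter Topology

/-- one of the curves `y ^ 2 = x ^ 3 ± A x ± B` has an integral point with `|x| ≤ exp (H ^ (1 / 3000))`,
`H = max (A ^ (1 / 2), B ^ (1 / 3))` -/
def Point (A B : ℕ) : Prop :=
  ∃ σ τ : ℤ, |σ| = 1 ∧ |τ| = 1 ∧ ∃ x y : ℤ, y ^ 2 = x ^ 3 + σ * A * x + τ * B ∧
    |(x : ℝ)| ≤ Real.exp (max ((A : ℝ) ^ ((1 : ℝ) / 2)) ((B : ℝ) ^ ((1 : ℝ) / 3)) ^ ((1 : ℝ) / 3000))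

/-- `A, B ≥ 1`, `A ^ 3 ≤ B ^ (2 + 1 / 48)` and `B ^ 2 ≤ A ^ (3 + 1 / 48)` -/
def Balanced (A B : ℕ) : Prop := 1 ≤ A ∧ 1 ≤ B ∧ A ^ 144 ≤ B ^ 97 ∧ B ^ 96 ≤ A ^ 145

/-- a balanced pair with an integral point on one of the four curves -/
def Bad (A B : ℕ) : Prop := Balanced A B ∧ Point A B

/-- A positive multiplicative function of at most polynomial growth, at most `M p` at the large primes `p` and with different
values at different large primes. -/
structure Moderate (f : ℕ → ℕ) : Prop where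
  mul : ∀ m n : ℕ, Nat.Coprime m n → f (m * n) = f m * f n
  pos : ∀ m : ℕ, 1 ≤ m → 1 ≤ f m
  growth : ∃ C D : ℕ, ∀ m : ℕ, 1 ≤ m → f m ≤ C * m ^ D
  prime : ∃ P M : ℕ, ∀ p : ℕ, P ≤ p → p.Prime → f p ≤ M * p ∧ ∀ q : ℕ, P ≤ q → q.Prime → f q = f p → q = p

/-- The steps of `G` are at least a positive constant, and `G` grows at most like `v ^ d`, `d ≥ 1`. -/
structure Expanding (G : ℕ → ℝ) (d : ℝ) : Prop where
  one_le : 1 ≤ d
  step : ∃ a : ℝ, 0 < a ∧ ∀ v : ℕ, 1 ≤ v → a ≤ G (v + 1) - G v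
  growth : ∃ C : ℝ, ∀ v : ℕ, 1 ≤ v → G v ≤ C * (v : ℝ) ^ d

open Classical in
/-- The proportion of the positive integers `m ≤ N` without the property `P` tends to `0`. -/
def AlmostAll (P : ℕ → Prop) : Prop :=
  Tendsto (fun N : ℕ => (((Icc 1 N).filter (fun m => ¬ P m)).card : ℝ) / N) atTop (𝓝 0)

open Classical in
/-- `P m m'` holds for 100% of the pairs `(m, m')`, in all boxes `[1, N] × [1, N']` with large sides. -/
def AlmostAllPairs (P : ℕ → ℕ → Prop) : Prop :=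
  ∀ δ : ℝ, 0 < δ → ∃ N₀ : ℕ, ∀ N N' : ℕ, N₀ ≤ N → N₀ ≤ N' →
    ((((Icc 1 N) ×ˢ (Icc 1 N')).filter (fun p => ¬ P p.1 p.2)).card : ℝ) ≤ δ * ((N : ℝ) * N')

/-- the value of `f` at the `k`-th iterate of Euler's function -/
def orb (f : ℕ → ℕ) (k m : ℕ) : ℕ := f (Nat.totient^[k] m)

theorem lm_of {f : ℕ → ℕ} (hf : Moderate f) : Pool.Agent.N733.TG.LM f := ⟨hf.mul, hf.pos, hf.growth, hf.prime⟩

theorem of_lm {f : ℕ → ℕ} (hf : Pool.Agent.N733.TG.LM f) : Moderate f := ⟨hf.mul, hf.pos, hf.growth, hf.prime⟩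

theorem ex_of {G : ℕ → ℝ} {d : ℝ} (h : Expanding G d) : Pool.Agent.N733.TG.Expanding G d := ⟨h.one_le, h.step, h.growth⟩

theorem aap_of {P : ℕ → ℕ → Prop} (h : Run7.h430.TW.Pairs.PairAA P) : AlmostAllPairs P := h

theorem rel : Run7.h430.TW.RPairs.Rel Bad 2 := by
  refine ⟨fun A B h => h.1.2.1, fun A B h => ?_, fun A B h => ?_⟩
  · obtain ⟨⟨hA, hB, h1, -⟩, -⟩ := h
    have h2 : A ^ 144 ≤ B ^ 144 := h1.trans (Nat.pow_le_pow_right hB (by norm_num))
    have h3 : A ≤ B := (Nat.pow_le_pow_iff_left (by norm_num)).1 h2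
    exact h3.trans (Nat.le_self_pow (by norm_num) B)
  · obtain ⟨⟨hA, hB, -, h1⟩, -⟩ := h
    have h2 : B ^ 96 ≤ (A ^ 2) ^ 96 := by
      rw [← pow_mul]
      exact h1.trans (Nat.pow_le_pow_right hA (by norm_num))
    exact (Nat.pow_le_pow_iff_left (by norm_num)).1 h2

/-- the number of the bad pairs in a box -/
theorem real_count : ∃ M : ℝ, 0 < M ∧ ∀ X Y : ℕ, 1 ≤ X → 1 ≤ Y →
    ((∑ A ∈ Icc 1 X, Run7.h430.TW.RPairs.cnt Bad A Y : ℕ) : ℝ) ≤ M * ((X : ℝ) * Y) ^ ((7663 : ℝ) / 7712) := by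
  classical
  obtain ⟨M, hM⟩ := Pool.Agent.R418.HL.main
  refine ⟨4 * |M| + 1, by positivity, fun X Y hX hY => ?_⟩
  have hX1 : (1 : ℝ) ≤ X := by exact_mod_cast hX
  have hY1 : (1 : ℝ) ≤ Y := by exact_mod_cast hY
  have hX0 : (0 : ℝ) < X := by linarith
  have hY0 : (0 : ℝ) < Y := by linarith
  obtain ⟨X', hX'⟩ : ∃ X' : ℝ, X' = min (X : ℝ) ((Y : ℝ) ^ ((97 : ℝ) / 144)) := ⟨_, rfl⟩
  obtain ⟨Y', hY'⟩ : ∃ Y' : ℝ, Y' = min (Y : ℝ) ((X : ℝ) ^ ((145 : ℝ) / 96)) := ⟨_, rfl⟩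
  have hX'1 : 1 ≤ X' := by rw [hX']; exact le_min hX1 (Real.one_le_rpow hY1 (by norm_num))
  have hY'1 : 1 ≤ Y' := by rw [hY']; exact le_min hY1 (Real.one_le_rpow hX1 (by norm_num))
  have hX'X : X' ≤ X := by rw [hX']; exact min_le_left _ _
  have hY'Y : Y' ≤ Y := by rw [hY']; exact min_le_left _ _
  obtain ⟨R, hR⟩ : ∃ R : ℝ, R = max (X' ^ ((1 : ℝ) / 2)) (Y' ^ ((1 : ℝ) / 3)) := ⟨_, rfl⟩
  have hR1 : 1 ≤ R := by rw [hR]; exact (Real.one_le_rpow hX'1 (by norm_num)).trans (le_max_left _ _)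
  have hRX : X' ≤ R ^ 2 := by
    have h1 : X' ^ ((1 : ℝ) / 2) ≤ R := by rw [hR]; exact le_max_left _ _
    calc X' = (X' ^ ((1 : ℝ) / 2)) ^ 2 := by
          rw [← Real.rpow_natCast, ← Real.rpow_mul (by linarith)]
          norm_num
      _ ≤ R ^ 2 := pow_le_pow_left₀ (by positivity) h1 2
  have hRY : Y' ≤ R ^ 3 := by
    have h1 : Y' ^ ((1 : ℝ) / 3) ≤ R := by rw [hR]; exact le_max_right _ _
    calc Y' = (Y' ^ ((1 : ℝ) / 3)) ^ 3 := by
          rw [← Real.rpow_natCast, ← Real.rpow_mul (by linarith)]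
          norm_num
      _ ≤ R ^ 3 := pow_le_pow_left₀ (by positivity) h1 3
  -- `R ^ (482 / 97) ≤ X Y`
  have hRXY : R ^ ((482 : ℝ) / 97) ≤ (X : ℝ) * Y := by
    rcases le_total (Y' ^ ((1 : ℝ) / 3)) (X' ^ ((1 : ℝ) / 2)) with h | h
    · have e : R = X' ^ ((1 : ℝ) / 2) := by rw [hR, max_eq_left h]
      have h1 : X' ^ ((144 : ℝ) / 97) ≤ Y := by
        have h2 : X' ≤ (Y : ℝ) ^ ((97 : ℝ) / 144) := by rw [hX']; exact min_le_right _ _
        calc X' ^ ((144 : ℝ) / 97) ≤ ((Y : ℝ) ^ ((97 : ℝ) / 144)) ^ ((144 : ℝ) / 97) :=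
              Real.rpow_le_rpow (by linarith) h2 (by norm_num)
          _ = Y := by
              rw [← Real.rpow_mul hY0.le]
              norm_num
      calc R ^ ((482 : ℝ) / 97) = X' ^ (1 : ℝ) * X' ^ ((144 : ℝ) / 97) := by
            rw [e, ← Real.rpow_mul (by linarith), ← Real.rpow_add (by linarith)]
            norm_num
        _ ≤ X * Y := by
            rw [Real.rpow_one]
            exact mul_le_mul hX'X h1 (by positivity) hX0.le
    · have e : R = Y' ^ ((1 : ℝ) / 3) := by rw [hR, max_eq_right h]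
      have h1 : Y' ^ ((96 : ℝ) / 145) ≤ X := by
        have h2 : Y' ≤ (X : ℝ) ^ ((145 : ℝ) / 96) := by rw [hY']; exact min_le_right _ _
        calc Y' ^ ((96 : ℝ) / 145) ≤ ((X : ℝ) ^ ((145 : ℝ) / 96)) ^ ((96 : ℝ) / 145) :=
              Real.rpow_le_rpow (by linarith) h2 (by norm_num)
          _ = X := by
              rw [← Real.rpow_mul hX0.le]
              norm_num
      calc R ^ ((482 : ℝ) / 97) ≤ R ^ ((3 : ℝ) + 288 / 145) := Real.rpow_le_rpow_of_exponent_le hR1 (by norm_num)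
        _ = Y' ^ ((96 : ℝ) / 145) * Y' ^ (1 : ℝ) := by
            rw [e, ← Real.rpow_mul (by linarith), ← Real.rpow_add (by linarith)]
            norm_num
        _ ≤ X * Y := by
            rw [Real.rpow_one]
            exact mul_le_mul h1 hY'Y (by linarith) hX0.le
  -- the bad pairs inject into the exceptional curves, for each choice of signs
  obtain ⟨hfin, hcard⟩ := hM R hR1
  obtain ⟨T, hT⟩ : ∃ T : Finset (ℤ × ℤ), T = hfin.toFinset := ⟨_, rfl⟩
  have hTc : (T.card : ℝ) ≤ M * R ^ ((79 : ℝ) / 16) := by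
    rw [hT, ← Set.ncard_eq_toFinset_card _ hfin]
    exact hcard
  have e1 : ∑ A ∈ Icc 1 X, Run7.h430.TW.RPairs.cnt Bad A Y =
      ((Icc 1 X).sigma (fun A => (Icc 1 Y).filter (fun B => Bad A B))).card := by
    rw [card_sigma]
    rfl
  obtain ⟨Q, hQ⟩ : ∃ Q : Finset (ℤ × ℤ), Q = (({1, -1} : Finset ℤ) ×ˢ ({1, -1} : Finset ℤ)) := ⟨_, rfl⟩
  have hQc : Q.card = 4 := by rw [hQ]; rfl
  have h4 : ((Icc 1 X).sigma (fun A => (Icc 1 Y).filter (fun B => Bad A B))).card ≤ (Q ×ˢ T).card := by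
    obtain ⟨u, hu⟩ : ∃ u : (Σ _ : ℕ, ℕ) → (ℤ × ℤ) × (ℤ × ℤ), ∀ q, Bad q.1 q.2 → (u q).1 ∈ Q ∧
        (u q).2 = ((u q).1.1 * q.1, (u q).1.2 * q.2) ∧ ∃ x y : ℤ, y ^ 2 = x ^ 3 + (u q).1.1 * q.1 * x + (u q).1.2 * q.2 ∧
        |(x : ℝ)| ≤ Real.exp (max (((q.1 : ℕ) : ℝ) ^ ((1 : ℝ) / 2)) (((q.2 : ℕ) : ℝ) ^ ((1 : ℝ) / 3)) ^ ((1 : ℝ) / 3000)) := by
      have : ∀ q : (Σ _ : ℕ, ℕ), ∃ w : (ℤ × ℤ) × (ℤ × ℤ), Bad q.1 q.2 → w.1 ∈ Q ∧
          w.2 = (w.1.1 * q.1, w.1.2 * q.2) ∧ ∃ x y : ℤ, y ^ 2 = x ^ 3 + w.1.1 * q.1 * x + w.1.2 * q.2 ∧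
          |(x : ℝ)| ≤ Real.exp (max (((q.1 : ℕ) : ℝ) ^ ((1 : ℝ) / 2)) (((q.2 : ℕ) : ℝ) ^ ((1 : ℝ) / 3)) ^
            ((1 : ℝ) / 3000)) := by
        intro q
        by_cases hb : Bad q.1 q.2
        · obtain ⟨-, σ, τ, hσ, hτ, hxy⟩ := hb
          refine ⟨((σ, τ), (σ * q.1, τ * q.2)), fun _ => ⟨?_, rfl, hxy⟩⟩
          rw [hQ, mem_product, mem_insert, mem_singleton, mem_insert, mem_singleton]
          simp only
          constructor
          · rcases (abs_eq (by norm_num : (0 : ℤ) ≤ 1)).1 hσ with h | h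
            · exact Or.inl h
            · exact Or.inr h
          · rcases (abs_eq (by norm_num : (0 : ℤ) ≤ 1)).1 hτ with h | h
            · exact Or.inl h
            · exact Or.inr h
        · exact ⟨((0, 0), (0, 0)), fun h => absurd h hb⟩
      choose u hu using this
      exact ⟨u, hu⟩
    refine card_le_card_of_injOn u ?_ ?_
    · rintro ⟨A, B⟩ hq
      rw [mem_coe, mem_sigma, mem_Icc, mem_filter, mem_Icc] at hq
      obtain ⟨⟨a1, a2⟩, ⟨b1, b2⟩, hb⟩ := hq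
      obtain ⟨g1, g2, x, y, g3, g4⟩ := hu ⟨A, B⟩ hb
      simp only at a1 a2 b1 b2 g3 g4
      rw [mem_coe, mem_product]
      refine ⟨g1, ?_⟩
      rw [g2, hT, Set.Finite.mem_toFinset]
      have hs1 : |((u ⟨A, B⟩).1.1 : ℝ)| = 1 := by
        rw [hQ, mem_product, mem_insert, mem_singleton] at g1
        rcases g1.1 with h | h <;> rw [h] <;> norm_num
      have hs2 : |((u ⟨A, B⟩).1.2 : ℝ)| = 1 := by
        rw [hQ, mem_product, mem_insert, mem_singleton, mem_insert, mem_singleton] at g1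
        rcases g1.2 with h | h <;> rw [h] <;> norm_num
      obtain ⟨hbal, -⟩ := hb
      obtain ⟨c1, c2, c3, c4⟩ := hbal
      have hA0 : (1 : ℝ) ≤ A := by exact_mod_cast a1
      have hB0 : (1 : ℝ) ≤ B := by exact_mod_cast b1
      have hAX' : (A : ℝ) ≤ X' := by
        rw [hX']
        refine le_min (by exact_mod_cast a2) ?_
        have h5 : ((A : ℝ)) ^ 144 ≤ (B : ℝ) ^ 97 := by exact_mod_cast c3
        have h6 : ((A : ℝ)) ^ 144 ≤ (Y : ℝ) ^ 97 := h5.trans (pow_le_pow_left₀ (by linarith) (by exact_mod_cast b2) 97)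
        calc (A : ℝ) = ((A : ℝ) ^ 144) ^ ((1 : ℝ) / 144) := by
              rw [← Real.rpow_natCast, ← Real.rpow_mul (by linarith)]
              norm_num
          _ ≤ ((Y : ℝ) ^ 97) ^ ((1 : ℝ) / 144) := Real.rpow_le_rpow (by positivity) h6 (by norm_num)
          _ = (Y : ℝ) ^ ((97 : ℝ) / 144) := by
              rw [← Real.rpow_natCast, ← Real.rpow_mul hY0.le]
              norm_num
      have hBY' : (B : ℝ) ≤ Y' := by
        rw [hY']
        refine le_min (by exact_mod_cast b2) ?_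
        have h5 : ((B : ℝ)) ^ 96 ≤ (A : ℝ) ^ 145 := by exact_mod_cast c4
        have h6 : ((B : ℝ)) ^ 96 ≤ (X : ℝ) ^ 145 := h5.trans (pow_le_pow_left₀ (by linarith) (by exact_mod_cast a2) 145)
        calc (B : ℝ) = ((B : ℝ) ^ 96) ^ ((1 : ℝ) / 96) := by
              rw [← Real.rpow_natCast, ← Real.rpow_mul (by linarith)]
              norm_num
          _ ≤ ((X : ℝ) ^ 145) ^ ((1 : ℝ) / 96) := Real.rpow_le_rpow (by positivity) h6 (by norm_num)
          _ = (X : ℝ) ^ ((145 : ℝ) / 96) := by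
              rw [← Real.rpow_natCast, ← Real.rpow_mul hX0.le]
              norm_num
      refine ⟨?_, ?_, x, y, g3, g4.trans (Real.exp_le_exp.2 ?_)⟩
      · push_cast
        rw [abs_mul, hs1, one_mul, abs_of_nonneg (by linarith)]
        exact hAX'.trans hRX
      · push_cast
        rw [abs_mul, hs2, one_mul, abs_of_nonneg (by linarith)]
        exact hBY'.trans hRY
      · refine Real.rpow_le_rpow (by positivity) ?_ (by norm_num)
        rw [hR]
        exact max_le_max (Real.rpow_le_rpow (by linarith) hAX' (by norm_num))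
          (Real.rpow_le_rpow (by linarith) hBY' (by norm_num))
    · rintro ⟨A, B⟩ hq ⟨A', B'⟩ hq' he
      rw [mem_coe, mem_sigma, mem_Icc, mem_filter, mem_Icc] at hq hq'
      obtain ⟨g1, g2, -⟩ := hu ⟨A, B⟩ hq.2.2
      obtain ⟨g1', g2', -⟩ := hu ⟨A', B'⟩ hq'.2.2
      rw [he] at g2 g1
      rw [g2'] at g2
      rw [Prod.mk.injEq] at g2
      obtain ⟨e2, e3⟩ := g2
      simp only at e2 e3
      have hne1 : (u ⟨A', B'⟩).1.1 ≠ 0 := by
        rw [hQ, mem_product, mem_insert, mem_singleton] at g1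
        rcases g1.1 with h | h <;> rw [h] <;> norm_num
      have hne2 : (u ⟨A', B'⟩).1.2 ≠ 0 := by
        rw [hQ, mem_product, mem_insert, mem_singleton, mem_insert, mem_singleton] at g1
        rcases g1.2 with h | h <;> rw [h] <;> norm_num
      have e4 := mul_left_cancel₀ hne1 e2
      have e5 := mul_left_cancel₀ hne2 e3
      have e6 : A' = A := by exact_mod_cast e4
      have e7 : B' = B := by exact_mod_cast e5
      rw [e6, e7]
  rw [e1]
  rw [card_product, hQc] at h4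
  have hpow : R ^ ((79 : ℝ) / 16) ≤ ((X : ℝ) * Y) ^ ((7663 : ℝ) / 7712) := by
    calc R ^ ((79 : ℝ) / 16) = (R ^ ((482 : ℝ) / 97)) ^ ((7663 : ℝ) / 7712) := by
          rw [← Real.rpow_mul (by linarith)]
          norm_num
      _ ≤ ((X : ℝ) * Y) ^ ((7663 : ℝ) / 7712) := Real.rpow_le_rpow (by positivity) hRXY (by norm_num)
  calc ((((Icc 1 X).sigma (fun A => (Icc 1 Y).filter (fun B => Bad A B))).card : ℕ) : ℝ) ≤ 4 * (T.card : ℝ) := by
        exact_mod_cast h4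
    _ ≤ 4 * (|M| * ((X : ℝ) * Y) ^ ((7663 : ℝ) / 7712)) := by
        apply mul_le_mul_of_nonneg_left _ (by norm_num)
        exact hTc.trans (mul_le_mul (le_abs_self M) hpow (by positivity) (abs_nonneg M))
    _ ≤ (4 * |M| + 1) * ((X : ℝ) * Y) ^ ((7663 : ℝ) / 7712) := by
        have : 0 ≤ ((X : ℝ) * Y) ^ ((7663 : ℝ) / 7712) := by positivity
        linarith

theorem box : ∃ X₀ : ℕ, 2 ≤ X₀ ∧ Run7.h430.TW.RPairs.BoxCount Bad 2 (1 / 100) X₀ := by
  obtain ⟨M, hM, h⟩ := real_count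
  have hlim := ((tendsto_rpow_atTop (show (0 : ℝ) < 1 / 1000 by norm_num)).comp
    (tendsto_natCast_atTop_atTop (R := ℝ))).eventually_ge_atTop M
  obtain ⟨Z, hZ⟩ := eventually_atTop.1 hlim
  refine ⟨max Z 2, le_max_right _ _, fun X Y hX hY _ _ => ?_⟩
  have hX1 : 1 ≤ X := le_trans (by norm_num) ((le_max_right Z 2).trans hX)
  have hY1 : 1 ≤ Y := le_trans (by norm_num) ((le_max_right Z 2).trans hY)
  refine (h X Y hX1 hY1).trans ?_
  obtain ⟨N, hN⟩ : ∃ N, N = min X Y := ⟨_, rfl⟩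
  rw [← hN]
  have hNZ : Z ≤ N := by rw [hN]; exact le_min ((le_max_left _ _).trans hX) ((le_max_left _ _).trans hY)
  have hN1 : 1 ≤ N := by rw [hN]; exact le_min hX1 hY1
  have hNX : N ≤ X := by rw [hN]; exact min_le_left _ _
  have hNY : N ≤ Y := by rw [hN]; exact min_le_right _ _
  have hN1r : (1 : ℝ) ≤ N := by exact_mod_cast hN1
  have hNXr : (N : ℝ) ≤ X := by exact_mod_cast hNX
  have hNYr : (N : ℝ) ≤ Y := by exact_mod_cast hNY
  have h1 : M ≤ (N : ℝ) ^ ((1 : ℝ) / 1000) := hZ N hNZ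
  have h2 : (N : ℝ) ^ (2 : ℝ) ≤ (X : ℝ) * Y := by
    rw [show (2 : ℝ) = ((2 : ℕ) : ℝ) by norm_num, Real.rpow_natCast, pow_two]
    exact mul_le_mul hNXr hNYr (by linarith) (by linarith)
  have hXY : 0 < (X : ℝ) * Y := by
    have : 0 < (N : ℝ) ^ (2 : ℝ) := by positivity
    linarith
  have h3 : (N : ℝ) ^ ((1 : ℝ) / 1000) * (N : ℝ) ^ ((1 : ℝ) / 100) ≤ ((X : ℝ) * Y) ^ ((49 : ℝ) / 7712) := by
    calc (N : ℝ) ^ ((1 : ℝ) / 1000) * (N : ℝ) ^ ((1 : ℝ) / 100) = (N : ℝ) ^ ((11 : ℝ) / 1000) := by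
          rw [← Real.rpow_add (by linarith)]
          norm_num
      _ ≤ (N : ℝ) ^ ((98 : ℝ) / 7712) := Real.rpow_le_rpow_of_exponent_le hN1r (by norm_num)
      _ = ((N : ℝ) ^ (2 : ℝ)) ^ ((49 : ℝ) / 7712) := by
          rw [← Real.rpow_mul (by linarith)]
          norm_num
      _ ≤ ((X : ℝ) * Y) ^ ((49 : ℝ) / 7712) := Real.rpow_le_rpow (by positivity) h2 (by norm_num)
  have h4 : 0 < (N : ℝ) ^ ((1 : ℝ) / 100) := by positivity
  have h5 : M ≤ (N : ℝ) ^ (-((1 : ℝ) / 100)) * ((X : ℝ) * Y) ^ ((49 : ℝ) / 7712) := by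
    rw [Real.rpow_neg (by linarith), inv_mul_eq_div, le_div_iff₀ h4]
    exact (mul_le_mul_of_nonneg_right h1 h4.le).trans h3
  calc M * ((X : ℝ) * Y) ^ ((7663 : ℝ) / 7712) ≤
        (N : ℝ) ^ (-((1 : ℝ) / 100)) * ((X : ℝ) * Y) ^ ((49 : ℝ) / 7712) * ((X : ℝ) * Y) ^ ((7663 : ℝ) / 7712) :=
        mul_le_mul_of_nonneg_right h5 (by positivity)
    _ = (N : ℝ) ^ (-((1 : ℝ) / 100)) * ((X : ℝ) * Y) := by
        rw [mul_assoc, ← Real.rpow_add hXY]
        norm_num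

/-- **The Hall-Lang conjecture along pairs of orbits of Euler's function.** -/
theorem result :
    -- (1) one orbit
    (∀ f : ℕ → ℕ, Moderate f → ∀ (F : ℕ → ℝ) (d : ℝ), Expanding F d → ∀ κ : ℝ, 0 ≤ κ → d * (1 - 1 / 10800) + κ < 1 →
      ∃ K : ℕ → ℕ, Tendsto K atTop atTop ∧ AlmostAll (fun m => ∀ k ≤ K m, ∀ a : ℕ, 1 ≤ a → a ≤ K m → ∀ A : ℕ,
        |(A : ℝ) - a * F (orb f k m)| ≤ K m * (orb f k m : ℝ) ^ κ → ∀ Y : ℕ, 1 ≤ Y →
          ({B : ℕ | 1 ≤ B ∧ B ≤ Y ∧ Bad A B}.ncard : ℝ) ≤ 2 * (Y : ℝ) ^ (1 - 1 / 10800 : ℝ))) ∧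
    -- (2) pairs of orbits
    (∀ f g : ℕ → ℕ, Moderate f → Moderate g → ∀ (F G : ℕ → ℝ) (d d' : ℝ), Expanding F d → Expanding G d' →
      ∀ κ : ℝ, 0 ≤ κ → d * (1 - 1 / 10800) + κ < 1 → d' * (1 - 1 / 10800) + κ < 1 →
      ∃ K : ℕ → ℕ, Tendsto K atTop atTop ∧ AlmostAllPairs (fun m m' => ∀ k ≤ K (min m m'), ∀ l ≤ K (min m m'),
        ∀ a b : ℕ, 1 ≤ a → a ≤ K (min m m') → 1 ≤ b → b ≤ K (min m m') → ∀ A B : ℕ,
          |(A : ℝ) - a * F (orb f k m)| ≤ K (min m m') * (orb f k m : ℝ) ^ κ →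
          |(B : ℝ) - b * G (orb g l m')| ≤ K (min m m') * (orb g l m' : ℝ) ^ κ → ¬ Bad A B)) ∧
    (Moderate (fun m => m) ∧ Moderate Nat.totient ∧ Moderate (fun m => ∑ d ∈ m.divisors, d)) ∧
    ∀ α d : ℝ, 0 < α → 1 ≤ d → Expanding (fun v => α * (v : ℝ) ^ d) d := by
  obtain ⟨X₀, hX₀, hbox⟩ := box
  have ec : (1 / 100 : ℝ) / (4 * (((2 : ℕ) : ℝ) + 1) ^ 3) = 1 / 10800 := by norm_num
  refine ⟨fun f hf F d hF κ hκ h1 => ?_, fun f g hf hg F G d d' hF hG κ hκ h1 h2 => ?_,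
    ⟨of_lm Pool.Agent.N760.IT.lm_id, of_lm Pool.Agent.N733.TG.lm_totient, of_lm Pool.Agent.N733.TG.lm_sigma⟩,
    fun α d hα hd => ?_⟩
  · obtain ⟨K, hK, h3⟩ := Run7.h430.TW.RPairs.one_kit rel (by norm_num) (by norm_num) hX₀ hbox (lm_of hf) (ex_of hF) hκ
      (by rw [ec]; exact h1)
    refine ⟨K, hK, Pool.Agent.N826.IT.Orb.almostAll_mono h3 (fun m hm k hk a ha1 ha A hA Y hY => ?_)⟩
    have h4 := hm k hk a ha1 ha A hA Y hY
    rw [ec] at h4
    refine le_trans (le_of_eq ?_) h4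
    classical
    unfold Run7.h430.TW.RPairs.cnt
    rw [← Set.ncard_coe_finset]
    congr 2
    ext B
    rw [mem_coe, mem_filter, mem_Icc, and_assoc]
    rfl
  · obtain ⟨K, hK, h3⟩ := Run7.h430.TW.RPairs.pairs_kit rel (by norm_num) (by norm_num) hX₀ hbox (lm_of hf) (lm_of hg)
      (ex_of hF) (ex_of hG) hκ (by rw [ec]; exact h1) (by rw [ec]; exact h2)
    exact ⟨K, hK, aap_of h3⟩
  · obtain ⟨h1, h2, h3⟩ := Pool.Agent.N733.TG.expanding_pow hα hd
    exact ⟨h1, h2, h3⟩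

end Pool.Agent.Results.MP_a1107e_nt.PairsOfOrbits
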