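import Pool.Agent.Run7.h983.Y3
import Pool.Agent.Run7.h983.Y6

set_option autoImplicit false

/-!
# The Hall-Lang conjecture for recursive sequences of integral points on families of curves

Let `A(s)`, `B(s)` be polynomials with integral coefficients, `4 A ^ 3 + 27 B ^ 2 ≠ 0`, and let
`x(m)`, `y(m)` be P-recursive sequences of integers (they satisfy nontrivial linear recurrences with
`t + 1` terms and polynomial coefficients, for example sums of products of polynomials, exponentials,
factorials and binomial coefficients) with `y(m) ^ 2 = x(m) ^ 3 + A(m) x(m) + B(m)` for all large `m`, one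
integral point on each of the curves of the family.

(1) There are at most `L(t)` pairs of polynomials `u, v` with `v ^ 2 = u ^ 3 + A u + B` such that on
each class modulo some `T` one has `(x(m), y(m)) = (u(m), v(m))` for one of them and all large `m`.
The number `L(t)` does not depend on the family or on its degree, nor on the sequences.  The degrees of
`u` and of `v` are at most `16 μ` and `24 μ`, where `μ` is the maximum of the degrees of `A` and `B`.

(2) So the inequality of Hall and Lang holds, with absolute exponents: for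
`H(m) = max (|A(m)|, |B(m)|)` one has `|x(m)| ≤ K H(m) ^ 16` and `|y(m)| ≤ K H(m) ^ 24` for large `m`.

(3) If `A` and `B` are not both constant, then `max (|x(m)|, |y(m)|) ≤ H(m) ^ 25` for all large `m`.

Proof.  (a) The generic member of the family is an elliptic curve over the algebraic closure of
`ℚ(s)`, without rational curves (four members of a pencil of polynomials whose product is a
square), so the theorem `fam_all` on P-recursive sequences of points on the members of a family
(difference Galois theory, the uniform bound for orbits of the starting files, Hilbert's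
irreducibility theorem on runs of integers) gives at most `L(t)` sections, and sections with
integral values are polynomials.  (b) The bound for the degrees of the polynomial solutions is
proved by elimination in the differential field: with `θ = s d/ds`, `Δ = 4 A ^ 3 + 27 B ^ 2`,
`w = 2 A θB - 3 B θA` the polynomial `v` divides
`Δ θu + 3 w u ^ 2 - (θΔ / 6) u + 2 A w = v Q`, and
`M = 2 w Δ θQ - 3 w ^ 2 (u Q - 3 w v) - (2 Δ θw + w θΔ / 6) Q` satisfies `deg (u ^ 2 v M) ≤ 3 deg u +
deg w + 2 deg Δ`, so that `M = 0` if `deg u > 16 μ`; but then the coefficient of this degree does not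
vanish (it is the indicial polynomial of the Picard-Fuchs equation at infinity).  If `w = 0` then `v`
divides `Δ θu - (θΔ / 6) u`.
-/

namespace Pool.Agent.Results.MP_a1107e_nt.RecursiveFamilies

open Polynomial Pool.Agent.Run7.h983

/-- The sequence of integers `s` satisfies a nontrivial linear recurrence with `t + 1` terms and
polynomial coefficients. -/
def RecOrder (t : ℕ) (s : ℕ → ℤ) : Prop :=
  ∃ p : Fin (t + 1) → ℤ[X], p ≠ 0 ∧
    ∀ m : ℕ, ∑ i : Fin (t + 1), (p i).eval (m : ℤ) * s (m + i) = 0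

/-- The polynomial with rational coefficients given by a polynomial with integral coefficients. -/
noncomputable def rat (A : ℤ[X]) : ℚ[X] := A.map (Int.castRingHom ℚ)

/-- `H(m) = max (|A(m)|, |B(m)|)`. -/
noncomputable def height (A B : ℤ[X]) (m : ℕ) : ℝ :=
  max |((A.eval (m : ℤ) : ℤ) : ℝ)| |((B.eval (m : ℤ) : ℤ) : ℝ)|

theorem rat_inj : Function.Injective (Polynomial.map (Int.castRingHom ℚ)) :=
  Polynomial.map_injective _ Int.cast_injective

theorem rat_eval (A : ℤ[X]) (m : ℕ) : (rat A).eval (m : ℚ) = ((A.eval (m : ℤ) : ℤ) : ℚ) := by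
  have h4 := hom_eval₂ A (RingHom.id ℤ) (Int.castRingHom ℚ) (m : ℤ)
  rw [eval₂_id, RingHom.comp_id] at h4
  have h5 : Int.castRingHom ℚ (m : ℤ) = (m : ℚ) := by simp
  rw [h5] at h4
  unfold rat
  rw [eval_map, ← h4]
  rfl

theorem rat_deg (A : ℤ[X]) : (rat A).natDegree = A.natDegree :=
  natDegree_map_eq_of_injective Int.cast_injective A

theorem rec_rat {t : ℕ} {s : ℕ → ℤ} (h : RecOrder t s) : ∃ p : Fin (t + 1) → ℚ[X], p ≠ 0 ∧
    ∀ m : ℕ, ∑ i : Fin (t + 1), (p i).eval (m : ℚ) * (s (m + i) : ℚ) = 0 := by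
  obtain ⟨p, hp, hs⟩ := h
  refine ⟨fun i => rat (p i), fun h0 => hp ?_, fun m => ?_⟩
  · funext i
    have h1 := congrFun h0 i
    apply rat_inj
    rw [Pi.zero_apply, Polynomial.map_zero]
    exact h1
  · have h1 := congrArg (fun z : ℤ => (z : ℚ)) (hs m)
    simp only [Int.cast_sum, Int.cast_mul, Int.cast_zero] at h1
    rw [← h1]
    refine Finset.sum_congr rfl fun i _ => ?_
    rw [rat_eval]

/-- **Theorem.** The inequality of Hall and Lang, with absolute exponents, for P-recursive sequences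
of integral points on all families of elliptic curves over the line. -/
theorem result : ∀ t : ℕ, ∃ L : ℕ, ∀ A B : ℤ[X], 4 * A ^ 3 + 27 * B ^ 2 ≠ 0 →
    ∀ x y : ℕ → ℤ, RecOrder t x → RecOrder t y →
    (∃ N : ℕ, ∀ m ≥ N, y m ^ 2 = x m ^ 3 + A.eval (m : ℤ) * x m + B.eval (m : ℤ)) →
    (∃ P : Finset (ℚ[X] × ℚ[X]), P.card ≤ L ∧
      (∀ p ∈ P, p.2 ^ 2 = p.1 ^ 3 + rat A * p.1 + rat B ∧
        p.1.natDegree ≤ 16 * max A.natDegree B.natDegree ∧
        p.2.natDegree ≤ 24 * max A.natDegree B.natDegree) ∧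
      ∃ T : ℕ, 1 ≤ T ∧ ∀ a : ℕ, ∃ p ∈ P, ∃ N : ℕ, ∀ m ≥ N, m % T = a % T →
        (x m : ℚ) = p.1.eval (m : ℚ) ∧ (y m : ℚ) = p.2.eval (m : ℚ)) ∧
    (∃ K : ℝ, ∃ N : ℕ, ∀ m ≥ N, |(x m : ℝ)| ≤ K * height A B m ^ 16 ∧
      |(y m : ℝ)| ≤ K * height A B m ^ 24) ∧
    (1 ≤ max A.natDegree B.natDegree →
      ∃ N : ℕ, ∀ m ≥ N, max |(x m : ℝ)| |(y m : ℝ)| ≤ height A B m ^ 25) := by
  intro t
  obtain ⟨L, hL⟩ := Hy.cub_fam t
  refine ⟨L, fun A B hΔ x y hx hy hon => ?_⟩
  have hΔ' : 4 * rat A ^ 3 + 27 * rat B ^ 2 ≠ 0 := by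
    intro h0
    apply hΔ
    apply rat_inj
    rw [Polynomial.map_zero, Polynomial.map_add, Polynomial.map_mul, Polynomial.map_mul,
      Polynomial.map_pow, Polynomial.map_pow, Polynomial.map_ofNat, Polynomial.map_ofNat]
    exact h0
  obtain ⟨P, hP, hPe, T, hT, hcl⟩ := hL (rat A) (rat B) hΔ' x y (rec_rat hx) (rec_rat hy) (by
    obtain ⟨N, hN⟩ := hon
    refine ⟨N, fun m hm => ?_⟩
    rw [rat_eval, rat_eval]
    exact_mod_cast hN m hm)
  have hdeg : ∀ p ∈ P, p.1.natDegree ≤ 16 * max A.natDegree B.natDegree ∧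
      p.2.natDegree ≤ 24 * max A.natDegree B.natDegree := by
    intro p hp
    have h1 := Hy.ff_bound (rat A) (rat B) p.1 p.2 hΔ' (hPe p hp)
    rw [rat_deg, rat_deg] at h1
    exact h1
  -- the coefficient of larger degree
  obtain ⟨G, hG0, hGd, hGh⟩ : ∃ G : ℤ[X], G ≠ 0 ∧ G.natDegree = max A.natDegree B.natDegree ∧
      ∀ m : ℕ, |((G.eval (m : ℤ) : ℤ) : ℝ)| ≤ height A B m := by
    by_cases hA : A = 0
    · refine ⟨B, ?_, ?_, fun m => le_max_right _ _⟩
      · rintro rfl
        apply hΔ
        rw [hA]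
        ring
      · rw [hA, natDegree_zero, max_eq_right (Nat.zero_le _)]
    by_cases hB : B = 0
    · refine ⟨A, hA, ?_, fun m => le_max_left _ _⟩
      rw [hB, natDegree_zero, max_eq_left (Nat.zero_le _)]
    rcases le_total A.natDegree B.natDegree with h | h
    · exact ⟨B, hB, (max_eq_right h).symm, fun m => le_max_right _ _⟩
    · exact ⟨A, hA, (max_eq_left h).symm, fun m => le_max_left _ _⟩
  have hH0 : ∀ m, 0 ≤ height A B m := fun m => (abs_nonneg _).trans (le_max_left _ _)
  have hrG0 : rat G ≠ 0 := fun h => hG0 (rat_inj (by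
    rw [Polynomial.map_zero]
    exact h))
  have hrGe : ∀ m : ℕ, |(((rat G).eval (m : ℚ) : ℚ) : ℝ)| ≤ height A B m := by
    intro m
    rw [rat_eval]
    have := hGh m
    exact_mod_cast this
  -- the bound for one polynomial
  have hone : ∀ (u : ℚ[X]) (e : ℕ), u.natDegree ≤ e * max A.natDegree B.natDegree →
      ∃ C : ℝ, 0 < C ∧ ∃ N : ℕ, ∀ m ≥ N, |((u.eval (m : ℚ) : ℚ) : ℝ)| ≤
        C * height A B m ^ e := by
    intro u e hu
    obtain ⟨C, hC, N, hN⟩ := Hy.grow u (rat G ^ e) (pow_ne_zero e hrG0) (by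
      rw [natDegree_pow, rat_deg, hGd]
      exact hu)
    refine ⟨C, hC, N, fun m hm => (hN m hm).trans ?_⟩
    rw [eval_pow]
    push_cast
    rw [abs_pow]
    exact mul_le_mul_of_nonneg_left (pow_le_pow_left₀ (abs_nonneg _) (hrGe m) e) hC.le
  have hmain : ∃ K : ℝ, 0 < K ∧ ∃ N : ℕ, ∀ m ≥ N, |(x m : ℝ)| ≤ K * height A B m ^ 16 ∧
      |(y m : ℝ)| ≤ K * height A B m ^ 24 := by
    have h1 : ∀ a : ℕ, ∃ K : ℝ, 0 < K ∧ ∃ N : ℕ, ∀ m ≥ N, m % T = a % T →
        |(x m : ℝ)| ≤ K * height A B m ^ 16 ∧ |(y m : ℝ)| ≤ K * height A B m ^ 24 := by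
      intro a
      obtain ⟨p, hp, N, hN⟩ := hcl a
      obtain ⟨hd1, hd2⟩ := hdeg p hp
      obtain ⟨C1, hC1, N1, hN1⟩ := hone p.1 16 hd1
      obtain ⟨C2, hC2, N2, hN2⟩ := hone p.2 24 hd2
      refine ⟨C1 + C2, by positivity, max N (max N1 N2), fun m hm hma => ?_⟩
      obtain ⟨e1, e2⟩ := hN m (le_trans (le_max_left _ _) hm) hma
      have g1 := hN1 m (le_trans ((le_max_left _ _).trans (le_max_right _ _)) hm)
      have g2 := hN2 m (le_trans ((le_max_right _ _).trans (le_max_right _ _)) hm)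
      rw [← e1] at g1
      rw [← e2] at g2
      have p1 : 0 ≤ height A B m ^ 16 := pow_nonneg (hH0 m) _
      have p2 : 0 ≤ height A B m ^ 24 := pow_nonneg (hH0 m) _
      constructor
      · refine le_trans ?_ (mul_le_mul_of_nonneg_right (le_add_of_nonneg_right hC2.le) p1)
        exact_mod_cast g1
      · refine le_trans ?_ (mul_le_mul_of_nonneg_right (le_add_of_nonneg_left hC1.le) p2)
        exact_mod_cast g2
    choose K hK N hN using h1
    refine ⟨∑ a ∈ Finset.range T, K a + 1, ?_, (Finset.range T).sup N, fun m hm => ?_⟩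
    · have : 0 ≤ ∑ a ∈ Finset.range T, K a := Finset.sum_nonneg fun a _ => (hK a).le
      linarith
    · have hmT : m % T ∈ Finset.range T := Finset.mem_range.2 (Nat.mod_lt _ (by omega))
      have h2 := hN (m % T) m (le_trans (Finset.le_sup (f := N) hmT) hm) (by rw [Nat.mod_mod])
      have h3 : K (m % T) ≤ ∑ a ∈ Finset.range T, K a + 1 := by
        have := Finset.single_le_sum (fun a _ => (hK a).le) hmT
        linarith
      exact ⟨h2.1.trans (mul_le_mul_of_nonneg_right h3 (pow_nonneg (hH0 m) _)),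
        h2.2.trans (mul_le_mul_of_nonneg_right h3 (pow_nonneg (hH0 m) _))⟩
  obtain ⟨K, hK0, N, hN⟩ := hmain
  refine ⟨⟨P, hP, fun p hp => ⟨hPe p hp, hdeg p hp⟩, T, hT, hcl⟩, ⟨K, N, hN⟩, fun hμ => ?_⟩
  -- the height tends to infinity
  obtain ⟨C, hC, N1, hN1⟩ := Hy.grow X (rat G) hrG0 (by
    rw [natDegree_X, rat_deg, hGd]
    exact hμ)
  refine ⟨max N (max N1 ⌈C * (K + 1)⌉₊), fun m hm => ?_⟩
  obtain ⟨g1, g2⟩ := hN m (le_trans (le_max_left _ _) hm)
  have h3 := hN1 m (le_trans ((le_max_left _ _).trans (le_max_right _ _)) hm)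
  have h4 : C * (K + 1) ≤ m :=
    (Nat.le_ceil _).trans (by exact_mod_cast (le_trans ((le_max_right _ _).trans (le_max_right _ _)) hm))
  have h5 : (m : ℝ) ≤ C * height A B m := by
    rw [eval_X] at h3
    have h6 : |((m : ℚ) : ℝ)| = (m : ℝ) := by
      rw [Rat.cast_natCast]
      exact abs_of_nonneg (Nat.cast_nonneg m)
    rw [h6] at h3
    exact h3.trans (mul_le_mul_of_nonneg_left (hrGe m) hC.le)
  have h6 : K + 1 ≤ height A B m := le_of_mul_le_mul_left (h4.trans h5) hC
  have h7 : 1 ≤ height A B m := by linarith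
  have h8 : K ≤ height A B m := by linarith
  refine max_le (g1.trans ?_) (g2.trans ?_)
  · calc K * height A B m ^ 16 ≤ height A B m * height A B m ^ 24 :=
          mul_le_mul h8 (pow_le_pow_right₀ h7 (by norm_num)) (by positivity) (hH0 m)
      _ = height A B m ^ 25 := by ring
  · calc K * height A B m ^ 24 ≤ height A B m * height A B m ^ 24 :=
          mul_le_mul_of_nonneg_right h8 (by positivity)
      _ = height A B m ^ 25 := by ring

end Pool.Agent.Results.MP_a1107e_nt.RecursiveFamilies
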