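import Mathlib
import Pool.Agent.Run7.h720.Hyp2
import Pool.Agent.Run7.h720.Sm

set_option autoImplicit false

/-!
# The Hall-Lang bound for short quasi-integral points of Weierstrass curves over number fields

Let `K` be a number field, `T` a finite set of primes, and let `Γ` be a finitely generated subgroup of the
multiplicative group of `K`. We consider all curves `y² = x³ + A x + B` over `K` and their points
`x = X / Z²`, `y = Y₁ Y₂ / Z³`, where `X`, `Z`, `Y₁`, `Y₂` are integral outside `T`, `X` and `Z` are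
coprime outside `T`, and `X`, `Z` and `Y₁` are short: sums of `r` terms `c * γ` with `γ` in `Γ` and `c` of
height at most `b * H(x) ^ δ`. The number `Y₂` is arbitrary. We prove
`(1 - ε) h(x) ≤ 2 N_T(Z) + 2 N_T(Y₂) + C (1 + h(A) + h(B))` with a constant `C` which does not depend on
`A` and `B`. So we have the bound of Hall and Lang, `h(x) ≤ C (1 + h(A) + h(B))`, for all such points for
which `2 N_T(Z) + 2 N_T(Y₂)` is at most `(1 - 2 ε) h(x)`: integral points (`Z = 1`) and, more generally,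
quasi-integral points.
-/

namespace Pool.Agent.Results.MP_a1107e_nt.ShortQuasiIntegralPoints

open NumberField IsDedekindDomain Height

variable {K : Type} [Field K] [NumberField K]

/-- The absolute logarithmic Weil height of `x`. -/
noncomputable def h (x : K) : ℝ := logHeight₁ x / Module.finrank ℚ K

/-- `ord_v (z)` times the logarithm of the norm of the prime `v`. (Mathlib's absolute value at `v` of
`z` is the norm of `v` to the power `-ord_v (z)`.) -/
noncomputable def ord (v : HeightOneSpectrum (𝓞 K)) (z : K) : ℝ := -Real.log (FinitePlace.mk v z)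

/-- `z` is integral at all primes outside `T`. -/
def IntegralOutside (T : Set (HeightOneSpectrum (𝓞 K))) (z : K) : Prop :=
  ∀ v ∉ T, FinitePlace.mk v z ≤ 1

/-- The absolute counting function of the zeros of `z` outside `T`: the sum of the `ord v z` over the
primes `v` outside `T`, divided by the degree of `K`. If `K` is the field of rational numbers, `T` is
empty and `z` is a nonzero integer, it is `log |z|`. -/
noncomputable def counting (T : Set (HeightOneSpectrum (𝓞 K))) (z : K) : ℝ :=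
  (∑ᶠ (v : HeightOneSpectrum (𝓞 K)) (_ : v ∉ T), ord v z) / Module.finrank ℚ K

/-- `z` is a sum of `r` terms `c * γ` with `γ` in `Γ` and `c` of (multiplicative, relative) height at
most `R`. -/
def IsShort (Γ : Subgroup Kˣ) (r : ℕ) (R : ℝ) (z : K) : Prop :=
  ∃ (c : Fin r → K) (γ : Fin r → Kˣ), (∀ j, γ j ∈ Γ) ∧ (∀ j, mulHeight₁ (c j) ≤ R) ∧
    z = ∑ j, c j * (γ j : K)

/-! ### Auxiliary lemmas -/

/-- the polynomial -/
noncomputable def pol (A B : K) : Polynomial K :=
  Polynomial.X ^ 3 + Polynomial.C A * Polynomial.X + Polynomial.C B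

theorem pol_deg (A B : K) : (pol A B).natDegree = 3 := by
  unfold pol
  compute_degree!

theorem pol_coprime (A B : K) (h : 4 * A ^ 3 + 27 * B ^ 2 ≠ 0) :
    IsCoprime (pol A B) (Polynomial.derivative (pol A B)) := by
  have hd : Polynomial.derivative (pol A B) =
      Polynomial.C 3 * Polynomial.X ^ 2 + Polynomial.C A := by
    have h3 : (3 : K) = 2 + 1 := by norm_num
    unfold pol
    simp
    rw [h3, map_add, map_one]
  obtain ⟨e, he⟩ : ∃ e : K, e * (4 * A ^ 3 + 27 * B ^ 2) = -1 :=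
    ⟨-(4 * A ^ 3 + 27 * B ^ 2)⁻¹, by rw [neg_mul, inv_mul_cancel₀ h]⟩
  refine ⟨Polynomial.C e * (Polynomial.C (18 * A) * Polynomial.X - Polynomial.C (27 * B)),
    Polynomial.C e * (Polynomial.C (-6 * A) * Polynomial.X ^ 2 + Polynomial.C (9 * B) *
      Polynomial.X - Polynomial.C (4 * A ^ 2)), ?_⟩
  have h1 : (1 : Polynomial K) = -Polynomial.C (e * (4 * A ^ 3 + 27 * B ^ 2)) := by
    rw [he]
    simp
  rw [hd, h1]
  unfold pol
  simp only [map_mul, map_add, map_pow, map_neg, map_ofNat]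
  ring

theorem pol_eval (A B x : K) : (pol A B).eval x = x ^ 3 + A * x + B := by
  unfold pol
  simp

theorem pol_heights (A B : K) :
    ∑ j : Fin (3 + 1), logHeight₁ ((pol A B).coeff j) = logHeight₁ A + logHeight₁ B := by
  have h0 : (pol A B).coeff 0 = B := by
    unfold pol
    simp
  have h1 : (pol A B).coeff 1 = A := by
    unfold pol
    simp [Polynomial.coeff_X, Polynomial.coeff_C, Polynomial.coeff_X_pow]
  have h2 : (pol A B).coeff 2 = 0 := by
    unfold pol
    simp [Polynomial.coeff_X, Polynomial.coeff_C, Polynomial.coeff_X_pow]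
  have h3 : (pol A B).coeff 3 = 1 := by
    unfold pol
    simp [Polynomial.coeff_X, Polynomial.coeff_C, Polynomial.coeff_X_pow]
  rw [Fin.sum_univ_four]
  show logHeight₁ ((pol A B).coeff 0) + logHeight₁ ((pol A B).coeff 1) +
    logHeight₁ ((pol A B).coeff 2) + logHeight₁ ((pol A B).coeff 3) = _
  rw [h0, h1, h2, h3, logHeight₁_zero, logHeight₁_one]
  ring

theorem cnt_sq (T : Set (HeightOneSpectrum (𝓞 K))) (z : K) (hz : z ≠ 0) :
    Pool.Agent.Run7.h720.cnt T (z ^ 2) = 2 * Pool.Agent.Run7.h720.cnt T z := by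
  classical
  unfold Pool.Agent.Run7.h720.cnt
  rw [mul_finsum']
  · refine finsum_congr fun v => ?_
    rw [finsum_eq_if, finsum_eq_if, map_pow, Real.log_pow]
    split_ifs <;> push_cast <;> ring
  · refine (Pool.Agent.Run7.h720.log_fv_support z hz).subset fun v hv h => hv ?_
    have h2 : Real.log (Pool.Agent.W180.OP.fv v z) = 0 := h
    show ∑ᶠ (_ : v ∉ T), -Real.log (Pool.Agent.W180.OP.fv v z) = 0
    rw [h2, neg_zero]
    exact finsum_zero

/-- the denominators -/
theorem npole_le (T : Set (HeightOneSpectrum (𝓞 K))) (X Z : K) (hZ : Z ≠ 0)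
    (hX : IntegralOutside T X) (hZT : IntegralOutside T Z) :
    Pool.Agent.Run7.h720.npole T (X / Z ^ 2) ≤ 2 * Pool.Agent.Run7.h720.cnt T Z := by
  classical
  rw [← cnt_sq T Z hZ]
  unfold Pool.Agent.Run7.h720.npole Pool.Agent.Run7.h720.cnt
  refine finsum_le_finsum' ?_ ?_ fun v => ?_
  · have hz2 : (![X, Z ^ 2] : Fin 2 → K) ≠ 0 :=
      Pool.Agent.K1H83.VN.ne_of_coord (i := 1) (pow_ne_zero 2 hZ)
    have h1 := Pool.Agent.K1H83.VN.log_support (![X / Z ^ 2, 1] : Fin 2 → K)
      (Pool.Agent.K1H83.VN.ne_of_one _ 1 rfl)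
    refine h1.subset fun v hv h => hv ?_
    have h2 : Real.log (Pool.Agent.K1H83.VN.nm (Pool.Agent.W180.OP.fv v)
      (![X / Z ^ 2, 1] : Fin 2 → K)) = 0 := h
    rw [Pool.Agent.Run7.h720.nm_pair', map_one] at h2
    show ∑ᶠ (_ : v ∉ T), Real.log (max (Pool.Agent.W180.OP.fv v (X / Z ^ 2)) 1) = 0
    rw [h2]
    exact finsum_zero
  · refine (Pool.Agent.Run7.h720.log_fv_support (Z ^ 2) (pow_ne_zero 2 hZ)).subset
      fun v hv h => hv ?_
    have h2 : Real.log (Pool.Agent.W180.OP.fv v (Z ^ 2)) = 0 := h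
    show ∑ᶠ (_ : v ∉ T), -Real.log (Pool.Agent.W180.OP.fv v (Z ^ 2)) = 0
    rw [h2, neg_zero]
    exact finsum_zero
  · rw [finsum_eq_if, finsum_eq_if]
    by_cases hv : v ∈ T
    · rw [if_neg (not_not.2 hv), if_neg (not_not.2 hv)]
    · rw [if_pos hv, if_pos hv]
      have h1 : 0 < Pool.Agent.W180.OP.fv v (Z ^ 2) :=
        (Pool.Agent.W180.OP.fv v).pos_iff.2 (pow_ne_zero 2 hZ)
      have h2 : Pool.Agent.W180.OP.fv v X ≤ 1 := hX v hv
      have h3 : Pool.Agent.W180.OP.fv v (Z ^ 2) ≤ 1 := by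
        rw [map_pow]
        exact pow_le_one₀ ((Pool.Agent.W180.OP.fv v).nonneg _) (hZT v hv)
      rw [← Real.log_inv]
      refine Real.log_le_log (lt_of_lt_of_le one_pos (le_max_right _ _)) (max_le ?_ ?_)
      · rw [map_div₀, div_eq_mul_inv]
        exact mul_le_of_le_one_left (by positivity) h2
      · exact (one_le_inv₀ h1).2 h3

/-- **The Hall-Lang bound for short quasi-integral points.** Let `K` be a number field, `T` a finite set
of primes of `K`, `Γ` a finitely generated subgroup of the multiplicative group of `K`, `r` and `M` natural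
numbers, `b ≥ 0` and `ε > 0` real numbers. There are `δ > 0` and `C` such that the following holds for all
`A` and `B` in `K` with `4 A³ + 27 B² ≠ 0` and all points `(x, y) = (X / Z², Y / Z³)` over `K` of the curve
`y² = x³ + A x + B`, `Y ≠ 0`, `X`, `Y` and `Z` integral and `X` and `Z` coprime outside `T`, such that `X`
and `Z` are short: sums of `r` terms `c * γ` with `γ` in `Γ` and `c` of height at most `b H(x) ^ δ`.
* If `Y = Y₁ * Y₂`, where `Y₁` and `Y₂` are integral outside `T` and `Y₁` is short, then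
  `(1 - ε) h(x) ≤ 2 N_T(Z) + 2 N_T(Y₂) + C (1 + h(A) + h(B))`; so `h(x) ≤ C (1 + h(A) + h(B))` if
  `2 N_T(Z) + 2 N_T(Y₂) ≤ (1 - 2 ε) h(x)`.
* If `(Y Z)²` divides `ρ ^ M * τ` outside `T`, where `ρ` and `τ` are nonzero and integral outside `T` and
  `ρ` is short, then `(2 - ε) h(x) ≤ N_T(ρ) + N_T(τ) + C (1 + h(A) + h(B))`. -/
theorem result (K : Type) [Field K] [NumberField K] (T : Set (HeightOneSpectrum (𝓞 K)))
    (hT : T.Finite) (Γ : Subgroup Kˣ) (hΓ : Γ.FG) (r M : ℕ) (b ε : ℝ) (hε : 0 < ε) :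
    ∃ δ C : ℝ, 0 < δ ∧ ∀ A B X Y Z : K, 4 * A ^ 3 + 27 * B ^ 2 ≠ 0 →
      (Y / Z ^ 3) ^ 2 = (X / Z ^ 2) ^ 3 + A * (X / Z ^ 2) + B → Y ≠ 0 → Z ≠ 0 →
      IntegralOutside T X → IntegralOutside T Y → IntegralOutside T Z →
      (∀ v ∉ T, max (FinitePlace.mk v X) (FinitePlace.mk v Z) = 1) →
      IsShort Γ r (b * mulHeight₁ (X / Z ^ 2) ^ δ) X →
      IsShort Γ r (b * mulHeight₁ (X / Z ^ 2) ^ δ) Z →
      (∀ Y₁ Y₂ : K, Y = Y₁ * Y₂ → IntegralOutside T Y₁ → IntegralOutside T Y₂ →
        IsShort Γ r (b * mulHeight₁ (X / Z ^ 2) ^ δ) Y₁ →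
        (1 - ε) * h (X / Z ^ 2) ≤ 2 * counting T Z + 2 * counting T Y₂ + C * (1 + h A + h B) ∧
        (2 * counting T Z + 2 * counting T Y₂ ≤ (1 - 2 * ε) * h (X / Z ^ 2) →
          h (X / Z ^ 2) ≤ C * (1 + h A + h B))) ∧
      (∀ ρ τ : K, ρ ≠ 0 → τ ≠ 0 → IntegralOutside T ρ → IntegralOutside T τ →
        IsShort Γ r (b * mulHeight₁ (X / Z ^ 2) ^ δ) ρ →
        (∀ v ∉ T, 2 * (ord v Y + ord v Z) ≤ M * ord v ρ + ord v τ) →
        (2 - ε) * h (X / Z ^ 2) ≤ counting T ρ + counting T τ + C * (1 + h A + h B)) := by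
  classical
  obtain ⟨δ, C, hδ, hC, hmain⟩ := Pool.Agent.Run7.h720.hyp_two K Γ hΓ T hT 3 (r * r + r) (M + 2)
    (b * b) ε hε
  obtain ⟨n, hn⟩ : ∃ n : ℝ, n = (Module.finrank ℚ K : ℝ) := ⟨_, rfl⟩
  have hn0 : 0 < n := by
    rw [hn]
    exact_mod_cast Module.finrank_pos
  have hn1 : 1 ≤ n := by
    rw [hn]
    exact_mod_cast Nat.one_le_iff_ne_zero.2 (Module.finrank_pos (R := ℚ) (M := K)).ne'
  refine ⟨δ / 2, C + C / ε, by positivity, ?_⟩
  intro A B X Y Z hAB hxy hY0 hZ0 hXT hYT hZT hcop hsX hsZ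
  obtain ⟨x, hx⟩ : ∃ x : K, x = X / Z ^ 2 := ⟨_, rfl⟩
  rw [← hx] at hxy hsX hsZ ⊢
  have hq : Z ^ 2 ≠ 0 := pow_ne_zero 2 hZ0
  have hev : (pol A B).eval (X / Z ^ 2) = (Y / Z ^ 3) ^ 2 := by
    rw [pol_eval, ← hx, hxy]
  have hfx : (pol A B).eval (X / Z ^ 2) ≠ 0 := by
    rw [hev]
    exact pow_ne_zero 2 (div_ne_zero hY0 (pow_ne_zero 3 hZ0))
  -- shortness
  obtain ⟨R, hR⟩ : ∃ R : ℝ, R = b * mulHeight₁ x ^ (δ / 2) := ⟨_, rfl⟩
  rw [← hR] at hsX hsZ ⊢
  have hR1 : 1 ≤ R := Pool.Agent.Run7.h720.short_pos hZ0 hsZ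
  have hRR : R * R = b * b * mulHeight₁ (X / Z ^ 2) ^ δ := by
    have h1 : mulHeight₁ x ^ (δ / 2) * mulHeight₁ x ^ (δ / 2) = mulHeight₁ x ^ δ := by
      rw [← Real.rpow_add (by positivity)]
      congr 1
      ring
    rw [hR, ← hx, ← h1]
    ring
  have hup : ∀ z : K, IsShort Γ r R z →
      Pool.Agent.Run7.h720.Short Γ (r * r + r) (b * b * mulHeight₁ (X / Z ^ 2) ^ δ) z := by
    intro z hz
    have h1 := Pool.Agent.Run7.h720.short_add (s := r * r) hR1 hz
    rw [add_comm] at h1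
    rw [← hRR]
    exact Pool.Agent.Run7.h720.short_weak (by nlinarith) h1
  have hup2 : ∀ z w : K, IsShort Γ r R z → IsShort Γ r R w →
      Pool.Agent.Run7.h720.Short Γ (r * r + r) (b * b * mulHeight₁ (X / Z ^ 2) ^ δ) (z * w) := by
    intro z w hz hw
    rw [← hRR]
    exact Pool.Agent.Run7.h720.short_add (by nlinarith)
      (Pool.Agent.Run7.h720.short_mul hz hw)
  have hsq : Pool.Agent.Run7.h720.Short Γ (r * r + r) (b * b * mulHeight₁ (X / Z ^ 2) ^ δ)
      (Z ^ 2) := by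
    have h1 := hup2 Z Z hsZ hsZ
    rw [← pow_two Z] at h1
    exact h1
  -- the local contributions
  have hlam : ∀ v ∉ T, (((3 : ℕ) : ℝ) + 1) *
      Real.log (max (Pool.Agent.W180.OP.fv v (X / Z ^ 2)) 1) -
      Real.log (Pool.Agent.W180.OP.fv v ((pol A B).eval (X / Z ^ 2))) =
      -(2 * (Real.log (Pool.Agent.W180.OP.fv v Y) + Real.log (Pool.Agent.W180.OP.fv v Z))) := by
    intro v hv
    have hfY : 0 < Pool.Agent.W180.OP.fv v Y := (Pool.Agent.W180.OP.fv v).pos_iff.2 hY0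
    have hfZ : 0 < Pool.Agent.W180.OP.fv v Z := (Pool.Agent.W180.OP.fv v).pos_iff.2 hZ0
    have hfX1 : Pool.Agent.W180.OP.fv v X ≤ 1 := hXT v hv
    have hfZ1 : Pool.Agent.W180.OP.fv v Z ≤ 1 := hZT v hv
    have hc : max (Pool.Agent.W180.OP.fv v X) (Pool.Agent.W180.OP.fv v Z) = 1 := hcop v hv
    have e1 : Real.log (Pool.Agent.W180.OP.fv v ((pol A B).eval (X / Z ^ 2))) =
        2 * Real.log (Pool.Agent.W180.OP.fv v Y) - 6 * Real.log (Pool.Agent.W180.OP.fv v Z) := by
      rw [hev, map_pow, map_div₀, map_pow, Real.log_pow, Real.log_div hfY.ne' (by positivity),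
        Real.log_pow]
      push_cast
      ring
    have e2 : Real.log (max (Pool.Agent.W180.OP.fv v (X / Z ^ 2)) 1) =
        -(2 * Real.log (Pool.Agent.W180.OP.fv v Z)) := by
      rcases hfZ1.lt_or_eq with hlt | heq
      · have h1 : Pool.Agent.W180.OP.fv v X = 1 := by
          rcases max_choice (Pool.Agent.W180.OP.fv v X) (Pool.Agent.W180.OP.fv v Z) with h | h
          · rw [← h, hc]
          · rw [hc] at h
            linarith
        have h2 : Pool.Agent.W180.OP.fv v (X / Z ^ 2) =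
            (Pool.Agent.W180.OP.fv v Z ^ 2)⁻¹ := by
          rw [map_div₀, map_pow, h1, one_div]
        have h3 : 1 ≤ (Pool.Agent.W180.OP.fv v Z ^ 2)⁻¹ :=
          (one_le_inv₀ (by positivity)).2 (pow_le_one₀ hfZ.le hfZ1)
        rw [h2, max_eq_left h3, Real.log_inv, Real.log_pow]
        push_cast
        ring
      · have h2 : Pool.Agent.W180.OP.fv v (X / Z ^ 2) ≤ 1 := by
          rw [map_div₀, map_pow, heq, one_pow, div_one]
          exact hfX1
        rw [max_eq_right h2, heq, Real.log_one]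
        ring
    rw [e1, e2]
    push_cast
    ring
  -- the heights
  have hh : logHeight₁ x = n * h x := by
    unfold h
    rw [← hn, mul_div_cancel₀ _ hn0.ne']
  have hcnt : ∀ z : K, Pool.Agent.Run7.h720.cnt T z = n * counting T z := by
    intro z
    unfold counting
    rw [← hn, mul_div_cancel₀ _ hn0.ne']
    rfl
  have hA0 : 0 ≤ h A := div_nonneg (zero_le_logHeight₁ _) (Nat.cast_nonneg _)
  have hB0 : 0 ≤ h B := div_nonneg (zero_le_logHeight₁ _) (Nat.cast_nonneg _)
  have hhx : 0 ≤ h x := div_nonneg (zero_le_logHeight₁ _) (Nat.cast_nonneg _)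
  have hS : C * (1 + ∑ j : Fin (3 + 1), logHeight₁ ((pol A B).coeff j)) ≤
      n * (C * (1 + h A + h B)) := by
    rw [pol_heights]
    have e1 : logHeight₁ A = n * h A := by
      unfold h
      rw [← hn, mul_div_cancel₀ _ hn0.ne']
    have e2 : logHeight₁ B = n * h B := by
      unfold h
      rw [← hn, mul_div_cancel₀ _ hn0.ne']
    rw [e1, e2]
    have h1 : C * 1 ≤ C * n := mul_le_mul_of_nonneg_left hn1 hC
    have e3 : n * (C * (1 + h A + h B)) = C * n + C * (n * h A + n * h B) := by ring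
    rw [e3, mul_add]
    linarith
  have hCC : C * (1 + h A + h B) ≤ (C + C / ε) * (1 + h A + h B) := by
    have h1 : 0 ≤ C / ε * (1 + h A + h B) := by positivity
    linarith
  have hCC' : C / ε * (1 + h A + h B) ≤ (C + C / ε) * (1 + h A + h B) := by
    have h1 : 0 ≤ C * (1 + h A + h B) := by positivity
    linarith
  have hf0 : pol A B ≠ 0 := by
    intro h0
    have := pol_deg A B
    rw [h0] at this
    simp at this
  have hM0 : (0 : ℝ) ≤ M := Nat.cast_nonneg M
  refine ⟨fun Y₁ Y₂ hYY hY₁T hY₂T hsY => ?_, fun ρ τ hρ0 hτ0 hρT hτT hsρ hdiv => ?_⟩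
  · have hY₁0 : Y₁ ≠ 0 := fun h0 => hY0 (by rw [hYY, h0, zero_mul])
    have hY₂0 : Y₂ ≠ 0 := fun h0 => hY0 (by rw [hYY, h0, mul_zero])
    have hlog : ∀ v : HeightOneSpectrum (𝓞 K), 2 * (Real.log (Pool.Agent.W180.OP.fv v Y) +
        Real.log (Pool.Agent.W180.OP.fv v Z)) =
        2 * Real.log (Pool.Agent.W180.OP.fv v (Z * Y₁)) +
          Real.log (Pool.Agent.W180.OP.fv v (Y₂ ^ 2)) := by
      intro v
      have h1 : Pool.Agent.W180.OP.fv v Y₁ ≠ 0 := (Pool.Agent.W180.OP.fv v).ne_zero_iff.2 hY₁0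
      have h2 : Pool.Agent.W180.OP.fv v Y₂ ≠ 0 := (Pool.Agent.W180.OP.fv v).ne_zero_iff.2 hY₂0
      have h3 : Pool.Agent.W180.OP.fv v Z ≠ 0 := (Pool.Agent.W180.OP.fv v).ne_zero_iff.2 hZ0
      rw [hYY, map_mul, map_mul, map_pow, Real.log_mul h1 h2, Real.log_mul h3 h1, Real.log_pow]
      push_cast
      ring
    have hρT : ∀ v ∉ T, Pool.Agent.W180.OP.fv v (Z * Y₁) ≤ 1 := by
      intro v hv
      rw [map_mul]
      exact mul_le_one₀ (hZT v hv) ((Pool.Agent.W180.OP.fv v).nonneg _) (hY₁T v hv)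
    have hτT : ∀ v ∉ T, Pool.Agent.W180.OP.fv v (Y₂ ^ 2) ≤ 1 := by
      intro v hv
      rw [map_pow]
      exact pow_le_one₀ ((Pool.Agent.W180.OP.fv v).nonneg _) (hY₂T v hv)
    have key := (hmain (pol A B) X (Z ^ 2) (Z * Y₁) (Y₂ ^ 2) (pol_deg A B) hf0
      (pol_coprime A B hAB) hq hfx (mul_ne_zero hZ0 hY₁0) (pow_ne_zero 2 hY₂0) hρT hτT
      (hup X hsX) hsq (hup2 Z Y₁ hsZ hsY) (by
        intro v hv
        rw [hlam v hv, hlog v]
        have h1 := Real.log_nonpos ((Pool.Agent.W180.OP.fv v).nonneg (Z * Y₁)) (hρT v hv)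
        have h3 := mul_nonneg hM0 (neg_nonneg.2 h1)
        push_cast
        linarith)).2 (by
        intro v hv
        rw [hlam v hv, hlog v])
    have hnp := npole_le T X Z hZ0 hXT hZT
    rw [← hx, cnt_sq T Y₂ hY₂0, hcnt, hh] at key
    rw [← hx, hcnt] at hnp
    have hfirst : (1 - ε) * h x ≤ 2 * counting T Z + 2 * counting T Y₂ +
        C * (1 + h A + h B) := by
      refine le_of_mul_le_mul_left ?_ hn0
      have e1 : n * ((1 - ε) * h x) = (((3 : ℕ) : ℝ) - 2 - ε) * (n * h x) := by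
        push_cast
        ring
      rw [e1]
      linarith
    refine ⟨by linarith, fun hle => ?_⟩
    have h1 : ε * h x ≤ C * (1 + h A + h B) := by linarith
    have h2 : h x ≤ C / ε * (1 + h A + h B) := by
      rw [div_mul_eq_mul_div, le_div_iff₀ hε]
      linarith
    linarith
  · have key := (hmain (pol A B) X (Z ^ 2) ρ τ (pol_deg A B) hf0 (pol_coprime A B hAB) hq hfx
      hρ0 hτ0 hρT hτT (hup X hsX) hsq (hup ρ hsρ) (by
        intro v hv
        rw [hlam v hv]
        have h1 := hdiv v hv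
        have e1 : ord v Y = -Real.log (Pool.Agent.W180.OP.fv v Y) := rfl
        have e2 : ord v ρ = -Real.log (Pool.Agent.W180.OP.fv v ρ) := rfl
        have e3 : ord v τ = -Real.log (Pool.Agent.W180.OP.fv v τ) := rfl
        have e4 : ord v Z = -Real.log (Pool.Agent.W180.OP.fv v Z) := rfl
        rw [e1, e2, e3, e4] at h1
        have h2 := Real.log_nonpos ((Pool.Agent.W180.OP.fv v).nonneg ρ) (hρT v hv)
        push_cast
        linarith)).1
    rw [← hx, hcnt, hcnt, hh] at key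
    have hfirst : (2 - ε) * h x ≤ counting T ρ + counting T τ + C * (1 + h A + h B) := by
      refine le_of_mul_le_mul_left ?_ hn0
      have e1 : n * ((2 - ε) * h x) = (((3 : ℕ) : ℝ) - 1 - ε) * (n * h x) := by
        push_cast
        ring
      rw [e1]
      linarith
    linarith

end Pool.Agent.Results.MP_a1107e_nt.ShortQuasiIntegralPoints
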